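import Mathlib

/-!
# The spectrum of a Toeplitz operator with rational symbol need not be a spectral set
-/

set_option autoImplicit false

namespace Pool.Agent.Results.MP_3abc29_an.NotSpectralSet

open MeasureTheory AddCircle Polynomial

/-- `L²` of the unit circle, parametrised by `x ↦ exp (2 π i x)` on `ℝ / ℤ` with its normalised
Haar measure. -/
def L2Circle : Type := Lp ℂ 2 (haarAddCircle (T := (1 : ℝ)))

noncomputable instance : NormedAddCommGroup L2Circle :=
  Lp.instNormedAddCommGroup (E := ℂ) (p := 2) (μ := haarAddCircle (T := (1 : ℝ)))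

noncomputable instance : InnerProductSpace ℂ L2Circle :=
  L2.innerProductSpace (𝕜 := ℂ) (E := ℂ) (μ := haarAddCircle (T := (1 : ℝ)))

/-- A function representing the class `u`. -/
noncomputable def rep (u : L2Circle) : AddCircle (1 : ℝ) → ℂ :=
  let v : Lp ℂ 2 (haarAddCircle (T := (1 : ℝ))) := u
  v

/-- The monomial `zⁿ` as an element of `L²`. -/
noncomputable def monomial (n : ℕ) : L2Circle :=
  (fourierLp 2 (n : ℤ) : Lp ℂ 2 (haarAddCircle (T := (1 : ℝ))))

/-- The Hardy space `H²`: the closed linear span of the monomials `zⁿ`, `n ≥ 0`. -/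
noncomputable def Hardy : Submodule ℂ L2Circle :=
  (Submodule.span ℂ (Set.range monomial)).topologicalClosure

/-- `v` is the product of `u` and the function `F` of `z`. -/
def IsProduct (F : ℂ → ℂ) (u v : L2Circle) : Prop :=
  rep v =ᵐ[haarAddCircle] fun x => F (toCircle x : ℂ) * rep u x

/-- `T` is the compression to `K` of the multiplication described by `mult`: for `u` in `K` and
`v` the product of the symbol and `u`, `T u` is the orthogonal projection of `v` onto `K`. -/
def IsCompression {E : Type} [NormedAddCommGroup E] [InnerProductSpace ℂ E]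
    (K : Submodule ℂ E) (mult : E → E → Prop) (T : K →L[ℂ] K) : Prop :=
  ∀ (u : K) (v : E), mult u v → v - T u ∈ Kᗮ

/-- `X` is a spectral set for `T` (von Neumann): `X` is closed, contains the spectrum, and
`‖r(T)‖ ≤ sup_X |r|` for every rational function `r = p / q` without poles in `X`. -/
def IsSpectralSet {H : Type} [NormedAddCommGroup H] [InnerProductSpace ℂ H]
    (X : Set ℂ) (T : H →L[ℂ] H) : Prop :=
  IsClosed X ∧ spectrum ℂ T ⊆ X ∧
  ∀ p q : ℂ[X], (∀ z ∈ X, q.eval z ≠ 0) → ∀ m : ℝ, (∀ z ∈ X, ‖p.eval z / q.eval z‖ ≤ m) →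
    ‖aeval T p * Ring.inverse (aeval T q)‖ ≤ m

/-- The spectrum of `T` is a spectral set for `T`. -/
def SpectrumIsSpectralSet {H : Type} [NormedAddCommGroup H] [InnerProductSpace ℂ H]
    (T : H →L[ℂ] H) : Prop :=
  IsSpectralSet (spectrum ℂ T) T

/-- `L²` of the circle, internal version -/
noncomputable abbrev L2T : Type := Lp ℂ 2 (haarAddCircle (T := (1 : ℝ)))

/-- The Hardy space, internal version -/
noncomputable def H2 : Submodule ℂ L2T :=
  (Submodule.span ℂ (Set.range fun n : ℕ => (fourierLp 2 (n : ℤ) : L2T))).topologicalClosure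

noncomputable instance : CompleteSpace H2 :=
  (Submodule.isClosed_topologicalClosure _).completeSpace_coe

lemma z_norm (x : AddCircle (1 : ℝ)) : ‖(toCircle x : ℂ)‖ = 1 := Circle.norm_coe _

lemma memLp_mul (n : ℤ) (u : L2T) :
    MemLp (fun x => fourier n x * (u : AddCircle (1 : ℝ) → ℂ) x) 2 haarAddCircle := by
  refine ⟨?_, ?_⟩
  · exact ((fourier n).continuous.aestronglyMeasurable).mul (Lp.aestronglyMeasurable u)
  · have : eLpNorm (fun x => fourier n x * (u : AddCircle (1 : ℝ) → ℂ) x) 2 haarAddCircle =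
        eLpNorm (u : AddCircle (1 : ℝ) → ℂ) 2 haarAddCircle := by
      apply eLpNorm_congr_norm_ae
      filter_upwards with x
      rw [norm_mul, fourier_apply, Circle.norm_coe, one_mul]
    rw [this]
    exact Lp.eLpNorm_lt_top u

/-- multiplication by `zⁿ` -/
noncomputable def mulz (n : ℤ) : L2T →ₗᵢ[ℂ] L2T where
  toFun u := (memLp_mul n u).toLp _
  map_add' u v := by
    rw [← MemLp.toLp_add]
    apply MemLp.toLp_congr
    filter_upwards [Lp.coeFn_add u v] with x hx
    rw [hx]
    simp [mul_add]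
  map_smul' c u := by
    rw [RingHom.id_apply, ← MemLp.toLp_const_smul]
    apply MemLp.toLp_congr
    filter_upwards [Lp.coeFn_smul c u] with x hx
    rw [hx]
    simp
    ring
  norm_map' u := by
    change ‖(memLp_mul n u).toLp _‖ = ‖u‖
    rw [Lp.norm_toLp, Lp.norm_def]
    congr 1
    apply eLpNorm_congr_norm_ae
    filter_upwards with x
    rw [norm_mul, fourier_apply, Circle.norm_coe, one_mul]

lemma coe_mulz (n : ℤ) (u : L2T) : (mulz n u : AddCircle (1 : ℝ) → ℂ) =ᵐ[haarAddCircle]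
    fun x => fourier n x * (u : AddCircle (1 : ℝ) → ℂ) x :=
  (memLp_mul n u).coeFn_toLp

lemma mulz_mulz (m n : ℤ) (u : L2T) : mulz m (mulz n u) = mulz (m + n) u := by
  apply Lp.ext
  filter_upwards [coe_mulz m (mulz n u), coe_mulz n u, coe_mulz (m + n) u] with x h1 h2 h3
  rw [h1, h2, h3, fourier_add, mul_assoc]

lemma mulz_zero (u : L2T) : mulz 0 u = u := by
  apply Lp.ext
  filter_upwards [coe_mulz 0 u] with x h1
  rw [h1, fourier_zero, one_mul]

lemma mulz_fourier (m n : ℤ) : mulz m (fourierLp 2 n : L2T) = fourierLp 2 (m + n) := by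
  apply Lp.ext
  filter_upwards [coe_mulz m (fourierLp 2 n : L2T), coeFn_fourierLp (T := (1 : ℝ)) 2 n,
    coeFn_fourierLp (T := (1 : ℝ)) 2 (m + n)] with x h1 h2 h3
  rw [h1, h2, h3, fourier_add]

lemma inner_mulz (u v : L2T) : (inner ℂ (mulz (-1) u) v : ℂ) = inner ℂ u (mulz 1 v) := by
  have h := (mulz 1).inner_map_map (mulz (-1) u) v
  rw [mulz_mulz] at h
  rw [← h]
  norm_num [mulz_zero]

lemma mulz_mem (u : H2) : mulz 1 (u : L2T) ∈ H2 := by
  have hu : (u : L2T) ∈ (Submodule.span ℂ (Set.range fun n : ℕ =>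
    (fourierLp 2 (n : ℤ) : L2T))).topologicalClosure := u.2
  have h1 : Set.MapsTo (mulz 1) (Submodule.span ℂ (Set.range fun n : ℕ =>
      (fourierLp 2 (n : ℤ) : L2T)) : Set L2T) (Submodule.span ℂ (Set.range fun n : ℕ =>
      (fourierLp 2 (n : ℤ) : L2T)) : Set L2T) := by
    intro x hx
    have hx' : x ∈ Submodule.span ℂ (Set.range fun n : ℕ => (fourierLp 2 (n : ℤ) : L2T)) := hx
    clear hx
    change mulz 1 x ∈ Submodule.span ℂ (Set.range fun n : ℕ => (fourierLp 2 (n : ℤ) : L2T))
    induction hx' using Submodule.span_induction with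
    | mem x hx =>
      obtain ⟨n, rfl⟩ := hx
      simp only
      rw [mulz_fourier]
      apply Submodule.subset_span
      refine ⟨n + 1, ?_⟩
      simp only
      congr 1
      push_cast
      ring
    | zero => rw [map_zero]; exact Submodule.zero_mem _
    | add x y _ _ hx hy => rw [map_add]; exact Submodule.add_mem _ hx hy
    | smul c x _ hx => rw [map_smul]; exact Submodule.smul_mem _ c hx
  exact map_mem_closure (mulz 1).continuous hu h1

/-- the shift on `H²` -/
noncomputable def S : H2 →ₗᵢ[ℂ] H2 where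
  toFun u := ⟨mulz 1 (u : L2T), mulz_mem u⟩
  map_add' u v := by
    ext1
    simp
  map_smul' c u := by
    ext1
    simp
  norm_map' u := by
    change ‖mulz 1 (u : L2T)‖ = ‖(u : L2T)‖
    exact (mulz 1).norm_map _

/-- the shift on `H²` as a continuous linear map -/
noncomputable def Sc : H2 →L[ℂ] H2 := S.toContinuousLinearMap

lemma norm_Sc : ‖Sc‖ ≤ 1 := S.norm_toContinuousLinearMap_le

lemma Sc_adj (u : H2) : (ContinuousLinearMap.adjoint Sc) u =
    H2.orthogonalProjectionOnto (mulz (-1) (u : L2T)) := by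
  apply ext_inner_right ℂ
  intro v
  rw [ContinuousLinearMap.adjoint_inner_left]
  have h1 : (inner ℂ (H2.orthogonalProjectionOnto (mulz (-1) (u : L2T))) v : ℂ) =
      inner ℂ (mulz (-1) (u : L2T)) (v : L2T) :=
    Submodule.inner_orthogonalProjectionOnto_eq_of_mem_right v (mulz (-1) (u : L2T))
  rw [h1, inner_mulz]
  rfl

section abstract

variable {H : Type*} [NormedAddCommGroup H] [InnerProductSpace ℂ H] [CompleteSpace H]

/-- The abstract part, for an arbitrary isometry. -/
theorem abstract_part (S : H →L[ℂ] H) (hS : ∀ w, ‖S w‖ = ‖w‖) (e : H) (he1 : ‖e‖ = 1)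
    (hadj : (ContinuousLinearMap.adjoint S) e = 0) :
    ∃ T : (H →L[ℂ] H)ˣ,
      (∀ u, ∃ w, w + (1 / 2 : ℂ) • S w = u ∧
        (T : H →L[ℂ] H) u = w + (1 / 2 : ℂ) • (ContinuousLinearMap.adjoint S) w) ∧
      (∀ z ∈ spectrum ℂ (T : H →L[ℂ] H), 1 ≤ ‖z‖) ∧ ¬ ‖(↑(T⁻¹) : H →L[ℂ] H)‖ ≤ 1 := by
  have hSn : ‖S‖ ≤ 1 := S.opNorm_le_bound zero_le_one fun x => by rw [hS, one_mul]
  set C : H →L[ℂ] H := 1 + (1 / 2 : ℂ) • S with hC
  obtain ⟨c, hc⟩ : ∃ c : (H →L[ℂ] H)ˣ, (c : H →L[ℂ] H) = C := by
    have h1 : ‖-((1 / 2 : ℂ) • S)‖ < 1 := by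
      rw [norm_neg, norm_smul]
      have h2 : ‖(1 / 2 : ℂ)‖ = 1 / 2 := by norm_num
      rw [h2]
      linarith
    refine ⟨Units.oneSub _ h1, ?_⟩
    rw [Units.val_oneSub, hC, sub_neg_eq_add]
  have C_apply : ∀ w, C w = w + (1 / 2 : ℂ) • S w := fun w => rfl
  have hstar : (star C : H →L[ℂ] H) = 1 + (1 / 2 : ℂ) • ContinuousLinearMap.adjoint S := by
    rw [hC, star_add, star_one, star_smul]
    congr 2
    simp
  have Cadj_apply : ∀ w, (star C : H →L[ℂ] H) w =
      w + (1 / 2 : ℂ) • (ContinuousLinearMap.adjoint S) w := by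
    intro w
    rw [hstar]
    rfl
  have norm_star_le : ∀ w, ‖(star C : H →L[ℂ] H) w‖ ≤ ‖C w‖ := by
    intro w
    rw [Cadj_apply, C_apply]
    have h1 : ‖w + (1 / 2 : ℂ) • (ContinuousLinearMap.adjoint S) w‖ ^ 2 ≤
        ‖w + (1 / 2 : ℂ) • S w‖ ^ 2 := by
      rw [norm_add_sq (𝕜 := ℂ), norm_add_sq (𝕜 := ℂ), inner_smul_right, inner_smul_right,
        norm_smul, norm_smul, ContinuousLinearMap.adjoint_inner_right, hS]
      have h2 : ‖(ContinuousLinearMap.adjoint S) w‖ ≤ ‖w‖ := by
        refine (ContinuousLinearMap.le_opNorm _ _).trans ?_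
        have h3 : ‖ContinuousLinearMap.adjoint S‖ = ‖S‖ := LinearIsometryEquiv.norm_map _ _
        rw [h3]
        nlinarith [norm_nonneg w]
      have h3 : RCLike.re ((1 / 2 : ℂ) * (inner ℂ (S w) w : ℂ)) =
          RCLike.re ((1 / 2 : ℂ) * (inner ℂ w (S w) : ℂ)) := by
        have h4 : (inner ℂ (S w) w : ℂ) = (starRingEnd ℂ) (inner ℂ w (S w)) :=
          (inner_conj_symm _ _).symm
        have h5 : (inner ℂ (S w) w : ℂ).re = (inner ℂ w (S w) : ℂ).re := by
          rw [h4, Complex.conj_re]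
        simp [h5]
      rw [h3]
      gcongr
    exact le_of_sq_le_sq h1 (norm_nonneg _)
  set T : (H →L[ℂ] H)ˣ := star c * c⁻¹ with hT
  have hrep : ∀ u, ∃ w, C w = u ∧ (T : H →L[ℂ] H) u = (star C : H →L[ℂ] H) w := by
    intro u
    refine ⟨(↑(c⁻¹) : H →L[ℂ] H) u, ?_, ?_⟩
    · rw [← hc]
      change ((c : H →L[ℂ] H) * (↑(c⁻¹) : H →L[ℂ] H)) u = u
      rw [c.mul_inv]
      rfl
    · rw [hT, Units.val_mul, Units.coe_star, hc]
      rfl
  have hTn : ‖(T : H →L[ℂ] H)‖ ≤ 1 := by
    apply ContinuousLinearMap.opNorm_le_bound _ zero_le_one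
    intro u
    obtain ⟨w, hCw, hTu⟩ := hrep u
    rw [hTu, one_mul, ← hCw]
    exact norm_star_le w
  refine ⟨T, ?_, ?_, ?_⟩
  · intro u
    obtain ⟨w, hCw, hTu⟩ := hrep u
    exact ⟨w, hCw, by rw [hTu, Cadj_apply]⟩
  · have hinv : T⁻¹ = c * star T * c⁻¹ := by
      rw [hT]
      simp [mul_assoc]
    intro z hz
    have hz0 : z ≠ 0 := spectrum.ne_zero_of_mem_of_unit hz
    have h4 : z⁻¹ ∈ spectrum ℂ (↑(T⁻¹) : H →L[ℂ] H) := spectrum.inv₀_mem_inv hz
    rw [hinv, Units.val_mul, Units.val_mul] at h4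
    have h5 : z⁻¹ ∈ spectrum ℂ (star (T : H →L[ℂ] H)) := by
      rw [spectrum.units_conjugate] at h4
      rw [Units.coe_star] at h4
      exact h4
    have h6 := spectrum.norm_le_norm_mul_of_mem h5
    rw [norm_star] at h6
    rw [norm_inv] at h6
    have h8 : ‖(1 : H →L[ℂ] H)‖ ≤ 1 := ContinuousLinearMap.norm_id_le
    have h7 : ‖z‖⁻¹ ≤ 1 := by
      refine h6.trans ?_
      calc ‖(T : H →L[ℂ] H)‖ * ‖(1 : H →L[ℂ] H)‖ ≤ 1 * 1 := by gcongr
        _ = 1 := one_mul _
    exact (inv_le_one₀ (norm_pos_iff.2 hz0)).1 h7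
  · intro h4
    have hCe : (star C : H →L[ℂ] H) e = e := by
      rw [Cadj_apply, hadj, smul_zero, add_zero]
    have hTe : (↑(T⁻¹) : H →L[ℂ] H) e = C e := by
      have h5 : (T : H →L[ℂ] H) (C e) = e := by
        obtain ⟨w, hw1, hw2⟩ := hrep (C e)
        have h6 : w = e := by
          have h7 := congrArg (↑(c⁻¹) : H →L[ℂ] H) hw1
          rw [← hc] at h7
          change ((↑(c⁻¹) : H →L[ℂ] H) * (c : H →L[ℂ] H)) w =
            ((↑(c⁻¹) : H →L[ℂ] H) * (c : H →L[ℂ] H)) e at h7
          rw [c.inv_mul] at h7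
          exact h7
        rw [hw2, h6, hCe]
      have h6 : (↑(T⁻¹) : H →L[ℂ] H) ((T : H →L[ℂ] H) (C e)) = C e := by
        change ((↑(T⁻¹) : H →L[ℂ] H) * (T : H →L[ℂ] H)) (C e) = C e
        rw [T.inv_mul]
        rfl
      rw [h5] at h6
      exact h6
    have h5 : ‖C e‖ ≤ 1 := by
      rw [← hTe]
      refine (ContinuousLinearMap.le_opNorm _ _).trans ?_
      rw [he1, mul_one]
      exact h4
    have h6 : ‖C e‖ ^ 2 = 1 + 1 / 4 := by
      rw [C_apply, norm_add_sq (𝕜 := ℂ), he1, norm_smul, hS, he1, inner_smul_right]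
      have h7 : (inner ℂ e (S e) : ℂ) = 0 := by
        rw [← ContinuousLinearMap.adjoint_inner_left, hadj, inner_zero_left]
      rw [h7]
      norm_num
    nlinarith [norm_nonneg (C e)]

end abstract

/-- **The spectrum of a Toeplitz operator with a rational symbol taking values in a simple closed
curve need not be a spectral set.** -/
theorem result' :
    ∃ p q : ℂ[X],
      -- `F = p / q` has no poles on the unit circle
      (∀ z : ℂ, ‖z‖ = 1 → q.eval z ≠ 0) ∧
      -- `F` maps the unit circle into a simple closed curve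
      (∃ γ : Circle → ℂ, Continuous γ ∧ Function.Injective γ ∧
        ∀ z : ℂ, ‖z‖ = 1 → p.eval z / q.eval z ∈ Set.range γ) ∧
      ∃ T : H2 →L[ℂ] H2, (∀ (u : H2) (v : L2T),
        ((v : AddCircle (1 : ℝ) → ℂ) =ᵐ[haarAddCircle] fun x => (fun z => p.eval z / q.eval z)
          (toCircle x : ℂ) * ((u : L2T) : AddCircle (1 : ℝ) → ℂ) x) →
          T u = H2.orthogonalProjectionOnto v) ∧ ¬ SpectrumIsSpectralSet T := by
  have hmem : (fourierLp 2 (0 : ℤ) : L2T) ∈ H2 := by
    apply Submodule.le_topologicalClosure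
    apply Submodule.subset_span
    exact ⟨0, rfl⟩
  have horth : Orthonormal ℂ (fun n : ℤ => (fourierLp 2 n : L2T)) := orthonormal_fourier
  obtain ⟨T, hrep, hspec, hnorm⟩ := abstract_part Sc (fun w => S.norm_map w)
    ⟨fourierLp 2 (0 : ℤ), hmem⟩ (horth.1 0) (by
      rw [Sc_adj]
      simp only
      rw [mulz_fourier, Submodule.orthogonalProjectionOnto_eq_zero_iff]
      unfold H2
      rw [Submodule.orthogonal_closure, Submodule.mem_orthogonal]
      intro x hx
      induction hx using Submodule.span_induction with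
      | mem x hx =>
        obtain ⟨n, rfl⟩ := hx
        apply horth.2
        omega
      | zero => rw [inner_zero_left]
      | add x y _ _ hx hy => rw [inner_add_left, hx, hy, add_zero]
      | smul a x _ hx => rw [inner_smul_left, hx, mul_zero])
  have hh : ∀ z : ℂ, ‖z‖ = 1 → (1 + 1 / 2 * z) ≠ 0 := by
    intro z hz h0
    have h1 : z / 2 = -1 := by linear_combination h0
    have h2 : ‖z / 2‖ = 1 := by rw [h1]; simp
    rw [norm_div, hz] at h2
    norm_num at h2
  refine ⟨X + Polynomial.C (1 / 2), X * (1 + Polynomial.C (1 / 2) * X), ?_, ?_,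
    (T : H2 →L[ℂ] H2), ?_, ?_⟩
  · intro z hz
    simp only [eval_mul, eval_X, eval_add, eval_one, eval_C]
    have hz0 : z ≠ 0 := by
      intro h; rw [h, norm_zero] at hz; exact zero_ne_one hz
    exact mul_ne_zero hz0 (hh z hz)
  · refine ⟨fun z => (z : ℂ), by fun_prop, Circle.coe_injective, ?_⟩
    intro z hz
    simp only [eval_mul, eval_X, eval_add, eval_one, eval_C]
    have h1 : ‖(z + 1 / 2) / (z * (1 + 1 / 2 * z))‖ = 1 := by
      rw [norm_div, norm_mul, hz, one_mul]
      have h2 : ‖z + 1 / 2‖ = ‖1 + 1 / 2 * z‖ := by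
        have h3 : (1 + 1 / 2 * z : ℂ) = z * (starRingEnd ℂ) (z + 1 / 2) := by
          have h4 : z * (starRingEnd ℂ) z = 1 := by
            rw [Complex.mul_conj, Complex.normSq_eq_norm_sq, hz]
            simp
          rw [map_add, mul_add, h4]
          have : (starRingEnd ℂ) (1 / 2 : ℂ) = 1 / 2 := by
            rw [map_div₀, map_one, Complex.conj_ofNat]
          rw [this]
          ring
        rw [h3, norm_mul, hz, one_mul, RCLike.norm_conj]
      rw [h2]
      apply div_self
      rw [norm_ne_zero_iff]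
      exact hh z hz
    exact ⟨⟨_, mem_sphere_zero_iff_norm.2 h1⟩, rfl⟩
  · intro u v huv
    obtain ⟨w, hCw, hTu⟩ := hrep u
    have hv : v = (w : L2T) + (1 / 2 : ℂ) • mulz (-1) (w : L2T) := by
      apply Lp.ext
      have hu : (u : L2T) = (w : L2T) + (1 / 2 : ℂ) • mulz 1 (w : L2T) := by
        rw [← hCw]
        rfl
      have e1 := Lp.coeFn_add (w : L2T) ((1 / 2 : ℂ) • mulz (-1) (w : L2T))
      have e2 := Lp.coeFn_smul (1 / 2 : ℂ) (mulz (-1) (w : L2T))
      have e3 := Lp.coeFn_add (w : L2T) ((1 / 2 : ℂ) • mulz 1 (w : L2T))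
      have e4 := Lp.coeFn_smul (1 / 2 : ℂ) (mulz 1 (w : L2T))
      rw [hu] at huv
      filter_upwards [huv, e1, e2, e3, e4, coe_mulz (-1) (w : L2T), coe_mulz 1 (w : L2T)] with
        x f0 f1 f2 f3 f4 f5 f6
      rw [f0, f1, Pi.add_apply, f2, Pi.smul_apply, f5, f3, Pi.add_apply, f4, Pi.smul_apply, f6]
      have h1 : (fourier 1 x : ℂ) = (toCircle x : ℂ) := by rw [fourier_one]
      have h2 : (fourier (-1) x : ℂ) * (toCircle x : ℂ) = 1 := by
        rw [← h1, ← fourier_add]
        norm_num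
      rw [h1]
      simp only [eval_mul, eval_X, eval_add, eval_one, eval_C, smul_eq_mul]
      have hz0 : (toCircle x : ℂ) ≠ 0 := by
        intro h0
        rw [h0, mul_zero] at h2
        exact zero_ne_one h2
      have hz1 := hh (toCircle x : ℂ) (z_norm x)
      have h3 : (fourier (-1) x : ℂ) = (toCircle x : ℂ)⁻¹ := eq_inv_of_mul_eq_one_left h2
      rw [h3]
      generalize (toCircle x : ℂ) = z at hz0 hz1
      generalize ((w : L2T) : AddCircle (1 : ℝ) → ℂ) x = y
      have h4 : (z + 1 / 2) / (z * (1 + 1 / 2 * z)) * (y + 1 / 2 * (z * y)) =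
          ((z + 1 / 2) / z) * y * ((1 + 1 / 2 * z) / (1 + 1 / 2 * z)) := by
        have h5 : (y + 1 / 2 * (z * y)) = y * (1 + 1 / 2 * z) := by ring
        rw [h5]
        generalize (1 + 1 / 2 * z : ℂ) = b
        simp only [div_eq_mul_inv, mul_inv]
        ring
      rw [h4, div_self hz1]
      field_simp
    rw [hTu, hv, map_add, map_smul, Sc_adj]
    congr 1
    exact (Submodule.orthogonalProjectionOnto_mem_subspace_eq_self w).symm
  · rintro ⟨_, _, h3⟩
    have h4 := h3 1 X (fun z hz => by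
      rw [eval_X]
      intro h0
      have := hspec z hz
      rw [h0, norm_zero] at this
      linarith) 1 (fun z hz => by
      rw [eval_X, eval_one, norm_div, norm_one]
      exact div_le_one_of_le₀ (hspec z hz) (norm_nonneg _))
    rw [map_one, one_mul, aeval_X, Ring.inverse_unit] at h4
    exact hnorm h4

/-- **The spectrum of a Toeplitz operator with a rational symbol taking values in a simple closed
curve need not be a spectral set.** -/
theorem result :
    ∃ p q : ℂ[X],
      -- `F = p / q` has no poles on the unit circle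
      (∀ z : ℂ, ‖z‖ = 1 → q.eval z ≠ 0) ∧
      -- `F` maps the unit circle into a simple closed curve
      (∃ γ : Circle → ℂ, Continuous γ ∧ Function.Injective γ ∧
        ∀ z : ℂ, ‖z‖ = 1 → p.eval z / q.eval z ∈ Set.range γ) ∧
      -- the Toeplitz operator with symbol `F` exists, but its spectrum is not a spectral set
      ∃ T : Hardy →L[ℂ] Hardy, IsCompression Hardy (IsProduct fun z => p.eval z / q.eval z) T ∧
        ¬ SpectrumIsSpectralSet T := by
  obtain ⟨p, q, h1, h2, T, h3, h4⟩ := result'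
  refine ⟨p, q, h1, h2, T, ?_, h4⟩
  intro u v huv
  have h5 := h3 u v huv
  have h6 : ∀ w : L2T, w - (H2.orthogonalProjectionOnto w : L2T) ∈ H2ᗮ := fun w =>
    Submodule.sub_starProjection_mem_orthogonal w
  have h7 := h6 v
  rw [← h5] at h7
  exact h7

end Pool.Agent.Results.MP_3abc29_an.NotSpectralSet
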